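import Pool.Agent.W896.FD.OV

/-!
# Orthogonal vectors needs many reads or much memory

We consider Boolean circuits with AND gates of fan-in two, OR gates of any fan-in and negations at
the inputs, whose inputs are the bits of an instance of Orthogonal Vectors: two lists of `N`
different vectors with `d` coordinates. Such a circuit accepts if and only if it has a proof tree
all of whose leaves are true literals; the formal degree in an input bit is the largest number of
leaves with this bit, that is, the number of times this bit is read. Nondeterministic, in particular
deterministic, branching programs are such circuits (the logarithm of the size is the memory, and a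
bit which is read at most `k` times on every path has degree at most `k`), and so are programs with a
stack; a proof tree of a circuit may even read any part of the input again and again in its
branches.

The circuits have to recognise the instances without an orthogonal pair. (The instances with an
orthogonal pair are recognised by a disjunction of `N ^ 2` small conjunctions, each of which reads
the bits of two vectors once.) Checking all pairs is a circuit of polynomial size and formal degree
`N` in each bit. We show that the size is `2 ^ Ω (N)` if the degrees are bounded by a constant on
average, for all dimensions `d ≥ 2 ⌈log₂ N⌉ + 3`. So algorithms of this kind with a memory of `o (N)`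
bits must read the input bits more than a constant number of times on average, and with a memory of
`O (log N)` bits they must read them `Ω (log N)` times. The statement holds for any two coordinates
`l1 ≠ l2` separately: it is enough that the degrees in the coordinate `l1` of the vectors of the first
list and in the coordinate `l2` of the vectors of the second list sum up to at most `k N`, while all
the other coordinates may be read as often as one likes; and then it remains true for circuits with
one-sided randomness, which find out only with probability `2 ^ (- N / D)` that there is no
orthogonal pair.

Proof. The proof trees are cut into few pieces in which only few of the free bits are read; a random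
placement of a matching on the indices makes many pairs monochromatic. The matching is coded in the
other coordinates: the vector `v` of the first list and the vector `w` of the second list are
orthogonal in these coordinates only if `v` is the partner of `w`, and in the coordinates `l1` and
`l2` they are orthogonal if and only if the free bits of both are zero.
-/

set_option autoImplicit false

namespace Pool.Agent.Results.MP_0f984e_lc.FormalDegree

open Pool.Agent.W896.RK Pool.Agent.W896.FD Pool.Agent.W896.FD.OV

/-- The bit `(false, i, l)` is the coordinate `l` of the vector `i` of the first list, and
`(true, i, l)` the one of the second list; `Valid` says that the vectors of each list are different,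
`Yes` that some vector of the first list is orthogonal to some vector of the second list.

1. Let `l1 ≠ l2` be coordinates and `U r` (`r` in a finite nonempty set) circuits none of which
accepts an instance with an orthogonal pair, such that every instance without such a pair is accepted
by at least a `2 ^ (- ⌊N / 2 ^ (60 (k + 1))⌋)` fraction of them. If in each `U r` the formal degrees
in the bits `(false, i, l1)` and `(true, i, l2)` sum up to at most `k N`, then some `U r` has `g`
gates with `N ≤ 2 ^ (60 (k + 1)) (⌊log₂ g⌋ + 1)`.

2. If a circuit accepts exactly the instances without an orthogonal pair (among all valid
instances), and its formal degrees in all the `2 N d` bits sum up to at most `2 k N d`, then it has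
`g` gates with `N ≤ 2 ^ (60 (4 k + 1)) (⌊log₂ g⌋ + 1)`. -/
theorem result (k N d : ℕ) (hd : 2 * Nat.clog 2 N + 3 ≤ d) :
    (∀ l1 l2 : Fin d, l1 ≠ l2 → ∀ (R : Type) [Fintype R] [Nonempty R]
      (U : R → Circ (Bool × Fin N × Fin d)),
      (∀ r x, Valid x → (U r).Val x (U r).out → ¬ Yes x) →
      (∀ x, Valid x → ¬ Yes x →
        Nat.card R ≤ 2 ^ (N / 2 ^ (60 * (k + 1))) * Nat.card {r // (U r).Val x (U r).out}) →
      (∀ r, ∃ f : (U r).G → Bool × Fin N × Fin d → ℕ, IsDeg (U r) id f ∧
        ∑ i, (f (U r).out (false, i, l1) + f (U r).out (true, i, l2)) ≤ k * N) →
      ∃ r, N ≤ 2 ^ (60 * (k + 1)) * (Nat.log 2 (Fintype.card (U r).G) + 1)) ∧
    ∀ U : Circ (Bool × Fin N × Fin d), (∀ x, Valid x → (U.Val x U.out ↔ ¬ Yes x)) →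
      (∃ f : U.G → Bool × Fin N × Fin d → ℕ, IsDeg U id f ∧
        ∑ v, f U.out v ≤ k * (2 * N * d)) →
      N ≤ 2 ^ (60 * (4 * k + 1)) * (Nat.log 2 (Fintype.card U.G) + 1) :=
  ⟨fun l1 l2 h12 _ _ _ U hU hc hdeg => ov_two k N d hd l1 l2 h12 _ U hU hc hdeg,
    fun U hU hdeg => ov_total k N d hd U hU hdeg⟩

end Pool.Agent.Results.MP_0f984e_lc.FormalDegree
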